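import Mathlib
import Pool.Agent.H744R2.KZ.Props

/-! All bounded derivations of unital C*-algebras are inner. -/

open scoped ComplexOrder InnerProductSpace ComplexConjugate Topology
open Finset Filter

noncomputable section

namespace H744R2.KZ

open H759R2.Kad

universe u

theorem prove_A_inner (h1 : A_alg.{u}) (h2 : A_cb.{u}) : A_inner.{u} := by
  intro A _ H _ _ _ π D K hD
  letI : PartialOrder A := CStarAlgebra.spectralOrder A
  haveI : StarOrderedRing A := CStarAlgebra.spectralOrderedRing A
  have hC : 0 ≤ (6 * C0 + 4) * K := by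
    have := hD.nonneg
    unfold C0
    positivity
  obtain ⟨T, -, hT⟩ := h2 A H π D hD.leib _ hC (h1 A H π D K hD)
  exact ⟨T, hT⟩

end H744R2.KZ
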