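import Mathlib
import Pool.Agent.H744R2.KZ.Props

/-! The bound for derivations of von Neumann algebras. -/

open scoped ComplexOrder InnerProductSpace ComplexConjugate Topology
open Finset Filter

noncomputable section

namespace H744R2.KZ

open H759R2.Kad

universe u

namespace AVnaux

variable {H : Type u} [NormedAddCommGroup H] [InnerProductSpace ℂ H] [CompleteSpace H]

/-- the inner derivation `a ↦ T a - a T` of `M` -/
def adT (M : VonNeumannAlgebra H) (T : H →L[ℂ] H) : M.toStarSubalgebra →ₗ[ℂ] (H →L[ℂ] H) where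
  toFun a := T * (a : H →L[ℂ] H) - (a : H →L[ℂ] H) * T
  map_add' a b := by
    rw [show ((a + b : M.toStarSubalgebra) : H →L[ℂ] H) = (a : H →L[ℂ] H) + b from rfl]
    rw [mul_add, add_mul]; abel
  map_smul' c a := by
    rw [show ((c • a : M.toStarSubalgebra) : H →L[ℂ] H) = c • (a : H →L[ℂ] H) from rfl]
    rw [mul_smul_comm, smul_mul_assoc, ← smul_sub]; rfl

theorem adT_apply (M : VonNeumannAlgebra H) (T : H →L[ℂ] H) (a : M.toStarSubalgebra) :
    adT M T a = T * (a : H →L[ℂ] H) - (a : H →L[ℂ] H) * T := rfl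

end AVnaux

open AVnaux in
theorem prove_A_vn (h1 : Z_pert.{u}) (h2 : C_exh.{u}) (h3 : A_loc.{u}) (h4 : A_ad.{u}) :
    A_vn.{u} := by
  intro H _ _ _ M _ _ D K hD n X
  obtain ⟨T, hT, hTc⟩ := h1 H M D K hD
  have hK : 0 ≤ K := hD.nonneg
  have hC0 : 0 ≤ C0 := by unfold C0; positivity
  -- the perturbed derivation
  have hD' : IsVDer M (D - adT M T) (3 * K) := by
    refine ⟨?_, by positivity, ?_⟩
    · intro a b
      have e := hD.leib a b
      have s1 : M.toStarSubalgebra.subtype a = (a : H →L[ℂ] H) := rfl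
      have s2 : M.toStarSubalgebra.subtype b = (b : H →L[ℂ] H) := rfl
      rw [s1, s2] at e ⊢
      rw [LinearMap.sub_apply, LinearMap.sub_apply, LinearMap.sub_apply, e, adT_apply, adT_apply,
        adT_apply]
      rw [show ((a * b : M.toStarSubalgebra) : H →L[ℂ] H) = (a : H →L[ℂ] H) * b from rfl]
      noncomm_ring
    · intro a
      rw [LinearMap.sub_apply, adT_apply]
      have e1 := hD.bound a
      have e2 : ‖T * (a : H →L[ℂ] H)‖ ≤ K * ‖a‖ :=
        (norm_mul_le _ _).trans (mul_le_mul_of_nonneg_right hT (norm_nonneg _))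
      have e3 : ‖(a : H →L[ℂ] H) * T‖ ≤ K * ‖a‖ := by
        refine (norm_mul_le _ _).trans ?_
        rw [mul_comm K]
        exact mul_le_mul_of_nonneg_left hT (norm_nonneg _)
      have e4 := norm_sub_le (D a) (T * (a : H →L[ℂ] H) - (a : H →L[ℂ] H) * T)
      have e5 := norm_sub_le (T * (a : H →L[ℂ] H)) ((a : H →L[ℂ] H) * T)
      linarith
  have hD'c : ∀ c : M.toStarSubalgebra, IsCen M (c : H →L[ℂ] H) → (D - adT M T) c = 0 := by
    intro c hc
    rw [LinearMap.sub_apply, hTc c hc, adT_apply, sub_self]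
  -- it commutes with the centre
  have hcomm : ∀ c, IsCP M c → ∀ a : M.toStarSubalgebra,
      (D - adT M T) a * c = c * (D - adT M T) a := by
    intro c hc a
    have hcM : c ∈ M := hc.2.1
    set c' : M.toStarSubalgebra := ⟨c, hcM⟩ with hc'
    have e1 := hD'.leib a c'
    have e2 := hD'.leib c' a
    have e3 : a * c' = c' * a := by
      apply Subtype.ext
      exact (hc.2.2 (a : H →L[ℂ] H) a.2).symm
    rw [hD'c c' hc.2, mul_zero, zero_add] at e1
    rw [hD'c c' hc.2, zero_mul, add_zero] at e2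
    rw [e3, e2] at e1
    exact e1.symm
  -- the bound for the perturbed derivation
  have hb : ‖amp (D - adT M T) (Fin n) X‖ ≤ C0 * (3 * K) * ‖X‖ := by
    apply h2 H M n (amp (D - adT M T) (Fin n) X) (C0 * (3 * K) * ‖X‖) (by positivity)
    · intro c hc
      ext v i
      rw [ContinuousLinearMap.mul_apply, ContinuousLinearMap.mul_apply, dg_apply, amp_apply,
        amp_apply, map_sum]
      refine Finset.sum_congr rfl fun j _ => ?_
      rw [dg_apply]
      exact congrArg (fun S : H →L[ℂ] H => S (v j)) (hcomm c hc (X i j))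
    · intro w hw hw0
      obtain ⟨z, hz, hz0, hwz, hzb⟩ := h3 H M (D - adT M T) (3 * K) hD' hD'c w hw hw0
      exact ⟨z, hz, hz0, hwz, hzb n X⟩
  have ha : ‖amp (adT M T) (Fin n) X‖ ≤ 2 * ‖T‖ * ‖X‖ :=
    h4 M.toStarSubalgebra H M.toStarSubalgebra.subtype (adT M T) T (fun _ => rfl) n X
  have hsum : amp D (Fin n) X = amp (D - adT M T) (Fin n) X + amp (adT M T) (Fin n) X := by
    ext v i
    rw [ContinuousLinearMap.add_apply, PiLp.add_apply, amp_apply, amp_apply, amp_apply,
      ← Finset.sum_add_distrib]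
    refine Finset.sum_congr rfl fun j _ => ?_
    rw [LinearMap.sub_apply, ContinuousLinearMap.sub_apply, sub_add_cancel]
  rw [hsum]
  refine (norm_add_le _ _).trans ?_
  have h5 : 2 * ‖T‖ * ‖X‖ ≤ 2 * K * ‖X‖ := by
    have := norm_nonneg X
    gcongr
  linarith

end H744R2.KZ
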