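import Mathlib
import Pool.Agent.H744R2.KZ.Props
import Pool.Agent.H759R2.Kad.Pow

/-! The fibre is a `2^k × 2^k` matrix algebra. -/

open scoped ComplexOrder InnerProductSpace ComplexConjugate Topology
open Finset Filter

noncomputable section

namespace H744R2.KZ

open H759R2.Kad

universe u

theorem prove_N_pow (h1 : N_two.{u}) : N_pow.{u} := by
  intro H _ _ _ M z B _ p hp hna k
  induction k with
  | zero =>
    refine ⟨M, B, inferInstance, p, hp, hna, ⟨?_⟩⟩
    have e1 : B ≃⋆ₐ[ℂ] CStarMatrix (Fin 1) (Fin 1) B := F10b.oneEquiv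
    exact e1.trans (CStarMatrix.reindexₐ ℂ B (finCongr (pow_zero 2).symm))
  | succ k ih =>
    obtain ⟨N, E, iE, q, hq, hN, ⟨φ⟩⟩ := ih
    obtain ⟨N', E', iE', q', hq', hN', ⟨ψ⟩⟩ := h1 H N z E q hq hN
    refine ⟨N', E', iE', q', hq', hN', ⟨?_⟩⟩
    have e1 := φ.trans (F10b.mapEquiv ψ)
    have e2 := e1.trans (F10b.compEquiv (Fin (2 ^ k)) (Fin 2))
    exact e2.trans
      (CStarMatrix.reindexₐ ℂ E' (finProdFinEquiv.trans (finCongr (pow_succ 2 k).symm)))

end H744R2.KZ
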